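import Pool.Agent.Q7.CE.Stm2
import Pool.Agent.Q190.CE.EKUM

/-!
# Project CE of helper7, part 2: job EKUM2 (helper193), adapted from EKUM of helper190
-/

set_option autoImplicit false

namespace Pool.Agent.Q193.CE

open WeierstrassCurve NumberField IsDedekindDomain
open Pool.Agent.Q7.CE
open Pool.Agent.Q190.CE
open Pool.Agent.Q7.LK (IsPow)
open Pool.Agent.TH841.SH.D (Coch Pt act Gal IsCoc IsCob LocTriv)
open Pool.Agent.TH841.NF.D (Sha IsShaCoc)

/-- the last part of the proof of EKUM -/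
theorem cob_of_pow {F : Type} [Field F] [NumberField F] {ω D : F} (hω : IsPrimitiveRoot ω 3) (hD : D ≠ 0)
    (h3 : (3 : AlgebraicClosure F) ≠ 0) (g : Coch (ED D)) (h : Gal F → ZMod 3)
    (hh : ∀ σ, g σ = tt D h3 hD (h σ)) {s : AlgebraicClosure F} {a : F} (hs0 : s ≠ 0)
    (hs3 : s ^ 3 = algebraMap F _ a)
    (hs : ∀ σ : Gal F, σ s = (algebraMap F (AlgebraicClosure F) ω) ^ (h σ).val * s)
    (j : ℕ) (hp : IsPow 3 (a * D ^ j)) : Cob3 D g := by
  have hw : ω ^ 2 + ω + 1 = 0 := by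
    have h1 : (ω - 1) * (ω ^ 2 + ω + 1) = 0 := by
      linear_combination hω.pow_eq_one
    have h2 : ω - 1 ≠ 0 := sub_ne_zero.2 (hω.ne_one (by norm_num))
    exact (mul_eq_zero.1 h1).resolve_left h2
  set I := algebraMap F (AlgebraicClosure F) ω with hIdef
  have hI : I ^ 2 + I + 1 = 0 := by
    rw [hIdef, ← map_pow, ← map_add, ← map_one (algebraMap F (AlgebraicClosure F)), ← map_add, hw, map_zero]
  have hfixI : ∀ σ : Gal F, σ I = I := fun σ => σ.commutes ω
  have hprim : IsPrimitiveRoot I 3 := hω.map_of_injective (algebraMap F (AlgebraicClosure F)).injective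
  obtain ⟨c, hc⟩ := hp
  obtain ⟨β, hβ⟩ := IsAlgClosed.exists_pow_nat_eq (algebraMap F (AlgebraicClosure F) D) (n := 3) (by norm_num)
  set d := algebraMap F (AlgebraicClosure F) D with hddef
  have hd : d ≠ 0 := (map_ne_zero _).2 hD
  have hβ0 : β ≠ 0 := by
    intro h0
    rw [h0] at hβ
    apply hd
    rw [← hβ]
    ring
  have hR : (I * d) ^ 2 + d * (I * d) = (-β ^ 2) ^ 3 := by
    rw [← hβ]
    linear_combination β ^ 6 * hI
  have h3R : (3 : ℕ) • (mkP h3 hD (-β ^ 2) (I * d) hR : Pt (ED D) (AlgebraicClosure F)) = 0 := by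
    rw [succ_nsmul, two_nsmul, R_add_R h3 hD hI hβ hR, neg_add_cancel]
  have hRT : ∀ k : ℕ, ∃ h', mkP h3 hD (-β ^ 2) (I * d) hR + k • TT D h3 hD =
      (mkP h3 hD (I ^ k * -β ^ 2) (I * d) h' : Pt (ED D) (AlgebraicClosure F)) := by
    intro k
    induction k with
    | zero =>
      rw [zero_nsmul, add_zero]
      exact mkP_congr (by ring) rfl
    | succ k ih =>
      obtain ⟨h', e⟩ := ih
      have hx : I ^ k * -β ^ 2 ≠ 0 := mul_ne_zero (pow_ne_zero _ (hprim.ne_zero (by norm_num))) (neg_ne_zero.2 (pow_ne_zero 2 hβ0))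
      obtain ⟨h'', e'⟩ := add_T h3 hD h' hx (by ring)
      rw [succ_nsmul, ← add_assoc, e]
      have hcub : (I ^ k * -β ^ 2) ^ 3 = - d ^ 2 := by
        rw [mul_pow, ← pow_mul, mul_comm k 3, pow_mul, hprim.pow_eq_one, one_pow, ← hβ]
        ring
      obtain ⟨h5, e5⟩ := mkP_congr (h3 := h3) (hD := hD) (h := h'')
        (show -d * (I * d) / (I ^ k * -β ^ 2) ^ 2 = I ^ (k + 1) * -β ^ 2 by
          rw [div_eq_iff (pow_ne_zero 2 hx)]
          linear_combination -I * hcub)
        (show -d ^ 2 * (I * d) / (I ^ k * -β ^ 2) ^ 3 = I * d by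
          rw [div_eq_iff (pow_ne_zero 3 hx)]
          linear_combination -(I * d) * hcub)
      exact ⟨h5, e'.trans e5⟩
  refine ⟨j • mkP h3 hD (-β ^ 2) (I * d) hR, ?_, ?_⟩
  · rw [smul_comm, h3R, nsmul_zero]
  · intro σ
    obtain ⟨b, hb⟩ := cube_eq hI (x := σ β) (y := β) (by rw [← map_pow, hβ]; exact σ.commutes D)
    have e1 : act (ED D) σ.toAlgHom (mkP h3 hD (-β ^ 2) (I * d) hR) = mkP h3 hD (-β ^ 2) (I * d) hR + (2 * b) • TT D h3 hD := by
      obtain ⟨h', e'⟩ := act_mk σ.toAlgHom h3 h3 hD hR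
      obtain ⟨h'', e''⟩ := hRT (2 * b)
      rw [e', e'']
      refine (mkP_congr ?_ ?_).choose_spec
      · show σ (-β ^ 2) = _
        rw [map_neg, map_pow, hb]
        ring
      · show σ (I * d) = _
        rw [map_mul, hfixI σ]
        congr 1
        exact σ.commutes D
    have e2 : ((h σ).val + b * j : ℕ) = (0 : ZMod 3) := by
      rw [ZMod.natCast_eq_zero_iff, ← hprim.pow_eq_one_iff_dvd]
      have hcc : (s * β ^ j) ^ 3 = (algebraMap F (AlgebraicClosure F) c) ^ 3 := by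
        rw [mul_pow, hs3, ← pow_mul, mul_comm j 3, pow_mul, hβ, hddef, ← map_pow, ← map_mul, hc, map_pow]
      obtain ⟨i, hi⟩ := cube_eq hI hcc
      have h5 : σ (s * β ^ j) = s * β ^ j := by
        rw [hi, map_mul, map_pow, hfixI σ, σ.commutes]
      rw [map_mul, map_pow, hs σ, hb] at h5
      have h6 : s * β ^ j ≠ 0 := mul_ne_zero hs0 (pow_ne_zero _ hβ0)
      apply mul_right_cancel₀ h6
      rw [one_mul]
      rw [pow_add, pow_mul]
      linear_combination h5
    rw [map_nsmul, e1, nsmul_add, add_sub_cancel_left, hh σ]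
    rw [← mul_nsmul, ← tt_nat]
    congr 1
    push_cast
    rw [Nat.cast_add, ZMod.natCast_zmod_val] at e2
    push_cast at e2
    have h30 : (3 : ZMod 3) = 0 := rfl
    linear_combination e2 - (b : ZMod 3) * j * h30

/-- the Kummer data of a locally trivial cocycle with values in `{0, T, -T}` -/
theorem kum_data {F : Type} [Field F] [NumberField F] {ω D : F} (hω : IsPrimitiveRoot ω 3) (hD : D ≠ 0)
    (h3 : (3 : AlgebraicClosure F) ≠ 0) (f : Coch (ED D)) (hf : TCoc D f) :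
    ∃ (h : Gal F → ZMod 3) (s : AlgebraicClosure F) (a : F), (∀ σ, f σ = tt D h3 hD (h σ)) ∧ s ≠ 0 ∧
      s ^ 3 = algebraMap F _ a ∧
      (∀ σ : Gal F, σ s = (algebraMap F (AlgebraicClosure F) ω) ^ (h σ).val * s) ∧
      ∀ v : HeightOneSpectrum (𝓞 F), AE v D a := by
  obtain ⟨hf, hker⟩ := hf
  have hw : ω ^ 2 + ω + 1 = 0 := by
    have h1 : (ω - 1) * (ω ^ 2 + ω + 1) = 0 := by
      linear_combination hω.pow_eq_one
    have h2 : ω - 1 ≠ 0 := sub_ne_zero.2 (hω.ne_one (by norm_num))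
    exact (mul_eq_zero.1 h1).resolve_left h2
  set I := algebraMap F (AlgebraicClosure F) ω with hIdef
  have hI : I ^ 2 + I + 1 = 0 := by
    rw [hIdef, ← map_pow, ← map_add, ← map_one (algebraMap F (AlgebraicClosure F)), ← map_add, hw, map_zero]
  have hfixI : ∀ σ : Gal F, σ I = I := fun σ => σ.commutes ω
  have hex : ∀ σ, ∃ c : ZMod 3, f σ = tt D h3 hD c := fun σ => ker_tt h3 hD _ (hker σ)
  choose h hh using hex
  have hcont : IsLocallyConstant h := by
    classical
    have e : h = (fun P : Pt (ED D) (AlgebraicClosure F) =>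
        if hx : ∃ c : ZMod 3, P = tt D h3 hD c then hx.choose else 0) ∘ f := by
      ext1 σ
      show h σ = if hx : ∃ c : ZMod 3, f σ = tt D h3 hD c then hx.choose else 0
      have hx : ∃ c : ZMod 3, f σ = tt D h3 hD c := ⟨h σ, hh σ⟩
      rw [dif_pos hx]
      exact tt_inj h3 hD ((hh σ).symm.trans hx.choose_spec)
    rw [e]
    exact hf.1.1.comp _
  have hmul : ∀ σ τ, h (σ * τ) = h σ + h τ := by
    intro σ τ
    apply tt_inj (L := AlgebraicClosure F) h3 hD
    rw [← hh, hf.1.2, hh σ, hh τ, act_tt _ h3 h3 hD, tt_add]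
  obtain ⟨s, a, hs0, hs3, hs⟩ := Pool.Agent.Y715.T.Kum.exists_root (K := F) (Ω := AlgebraicClosure F) h3 hI hfixI h hmul hcont
  have ha0 : a ≠ 0 := by
    intro h0
    rw [h0, map_zero] at hs3
    exact hs0 (pow_eq_zero_iff (three_ne_zero) |>.1 hs3)
  refine ⟨h, s, a, hh, hs0, hs3, hs, ?_⟩
  intro v
  refine ⟨ha0, ?_⟩
  have : CharZero (v.adicCompletion F) := charZero_of_injective_algebraMap (algebraMap F _).injective
  exact local_AE hD (v.adicCompletion F) f h3 h hh (hf.2.1 v) hw hs0 hs3 hs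

theorem tt_sub {F : Type} [Field F] {D : F} {L : Type} [Field L] [Algebra F L] (h3 : (3 : L) ≠ 0) (hD : D ≠ 0)
    (c c' : ZMod 3) : (tt D h3 hD (c - c') : Pt (ED D) L) = tt D h3 hD c - tt D h3 hD c' := by
  have h := tt_add (L := L) h3 hD (c - c') c'
  rw [sub_add_cancel] at h
  rw [h, add_sub_cancel_right]

/-- **JOB EKUM2** -/
theorem ekum2 : S_EKUM2 := by
  intro F _ _ ω D hω hD n f hf
  have h3 : (3 : AlgebraicClosure F) ≠ 0 := three_ne_zero
  have hdata := fun i => kum_data hω hD h3 (f i) (hf i)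
  choose h s a hh hs0 hs3 hs hA using hdata
  have hprim : IsPrimitiveRoot (algebraMap F (AlgebraicClosure F) ω) 3 :=
    hω.map_of_injective (algebraMap F (AlgebraicClosure F)).injective
  refine ⟨a, hA, fun i j hp => cob_of_pow hω hD h3 (f i) (h i) (hh i) (hs0 i) (hs3 i) (hs i) j hp, ?_⟩
  intro i i' j hp
  refine cob_of_pow hω hD h3 (f i - f i') (fun σ => h i σ - h i' σ) ?_ (s := s i / s i') (a := a i / a i')
    (div_ne_zero (hs0 i) (hs0 i')) ?_ ?_ j hp
  · intro σ
    rw [tt_sub, ← hh i σ, ← hh i' σ]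
    rfl
  · rw [div_pow, hs3 i, hs3 i', map_div₀]
  · intro σ
    rw [map_div₀, hs i σ, hs i' σ]
    have e : (algebraMap F (AlgebraicClosure F) ω) ^ (h i σ).val =
        (algebraMap F (AlgebraicClosure F) ω) ^ (h i σ - h i' σ).val *
          (algebraMap F (AlgebraicClosure F) ω) ^ (h i' σ).val := by
      rw [← pow_add]
      have hm : (h i σ).val ≡ (h i σ - h i' σ).val + (h i' σ).val [MOD 3] := by
        rw [← ZMod.natCast_eq_natCast_iff]
        push_cast
        rw [ZMod.natCast_zmod_val, ZMod.natCast_zmod_val, ZMod.natCast_zmod_val]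
        ring
      rw [pow_eq_pow_mod _ hprim.pow_eq_one, hm, ← pow_eq_pow_mod _ hprim.pow_eq_one]
    have h0 : (algebraMap F (AlgebraicClosure F) ω) ^ (h i' σ).val ≠ 0 := pow_ne_zero _ (hprim.ne_zero (by norm_num))
    have h1 := hs0 i'
    rw [e]
    field_simp

end Pool.Agent.Q193.CE
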